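import Pool.Agent.helper29.KS.Final

/-!
Topological conjugacy of Kupka-Smale diffeomorphisms of the two-torus is not Borel, in any
smoothness class `r = 1, 2, ..., ∞`.
-/

open scoped Manifold ContDiff

namespace Pool.Agent.Results.MP_632c34_an.TorusNotBorel

open Pool.Agent.helper29.KS

/-- There is a closed connected smooth manifold `M` of dimension two, homeomorphic to the torus,
such that for all `r = 1, 2, ..., ∞` topological conjugacy restricted to the Kupka-Smale
diffeomorphisms of class `C^r` is not a Borel set. -/
theorem result :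
    ∃ (E : Type) (_ : NormedAddCommGroup E) (_ : NormedSpace ℝ E) (H : Type)
      (_ : TopologicalSpace H) (I : ModelWithCorners ℝ E H) (M : Type) (_ : TopologicalSpace M)
      (_ : ChartedSpace H M) (_ : IsManifold I ∞ M),
      Module.finrank ℝ E = 2 ∧ I.Boundaryless ∧ CompactSpace M ∧ ConnectedSpace M ∧
      Nonempty (M ≃ₜ Circle × Circle) ∧
      ∀ r : ℕ∞, 1 ≤ r → ¬ @MeasurableSet (KSr I M r × KSr I M r) (borel _) (conjRel I M r) := by
  refine ⟨EuclideanSpace ℝ (Fin 1) × EuclideanSpace ℝ (Fin 1), inferInstance, inferInstance,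
    ModelProd (EuclideanSpace ℝ (Fin 1)) (EuclideanSpace ℝ (Fin 1)), inferInstance,
    (𝓡 1).prod (𝓡 1), Circle × Circle, inferInstance, inferInstance, inferInstance,
    ?_, inferInstance, inferInstance, inferInstance, ⟨Homeomorph.refl _⟩, fun r _ => not_borel r⟩
  rw [Module.finrank_prod, finrank_euclideanSpace_fin]

end Pool.Agent.Results.MP_632c34_an.TorusNotBorel
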